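import Pool.Agent.FComp.Upper

/-!
# The component of the free groups has diameter at least six

Let `p ≥ 2` and let `Q₁`, `Q₂` be non-isomorphic finite non-abelian simple groups. The groups
`BS(1,p) × Q₁` and `BS(1,p) × Q₂` lie in the component of the free groups and their distance is
exactly `6`. Hence the diameter of the component is at least `6`.

Lower bound. For a finite non-abelian simple group `Q` consider the classes
`Quo ⊆ Met ⊆ Dir ⊆ Sur`: quotients of `BS(1,p) × Q` in which `Q` survives, groups `K × Q` with `K`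
metabelian, groups `K × Q`, groups with a quotient `Q`. The first and the third are closed under
limits backwards, the second and the fourth under limits forwards. So a chain which starts at
`BS(1,p) × Q₁` is in `Quo`, `Met`, `Dir`, `Sur` after `0`, `1`, `2`, `3` steps, and `Met Q₂` and
`Sur Q₁` are disjoint.

Upper bound. `BS(1,p) × Q → (Z² wr Z²) × Q ← (F₂ wr Z²) × Q → F_k` for all large `k`; the last
arrow uses generating tuples of `(F₂ wr Z²) × Q` which satisfy no short relation.
-/

namespace Pool.Agent.Results.MP_d050e6_al.DiameterSix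

open FComp

theorem result : (∀ m, 2 ≤ m → free m ∈ Comp) ∧
    (∀ p, 2 ≤ p → ∀ (Q₁ Q₂ : Type) [Group Q₁] [Group Q₂] [Finite Q₁] [Finite Q₂]
      [IsSimpleGroup Q₁] [IsSimpleGroup Q₂], (∃ a b : Q₁, a * b ≠ b * a) →
      (∃ a b : Q₂, a * b ≠ b * a) → IsEmpty (Q₁ ≃* Q₂) →
      bsq p Q₁ ∈ Comp ∧ bsq p Q₂ ∈ Comp ∧ gdist (bsq p Q₁) (bsq p Q₂) = 6) ∧
    6 ≤ diam :=
  main

end Pool.Agent.Results.MP_d050e6_al.DiameterSix
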